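import Mathlib
import Pool.Agent.Q3.Spec.Salem

/-!
# MP_8d213d_nt: the geometric-progression Lagrange spectrum of a Salem number is never closed
-/

set_option autoImplicit false

namespace Pool.Agent.Results.MP_8d213d_nt.NotClosed

open Filter Topology Polynomial

/-- Distance to the nearest integer. -/
noncomputable def dist1 (x : ℝ) : ℝ := |x - (round x : ℝ)|

/-- Salem numbers: real algebraic integers `α > 1` all of whose other conjugates have modulus at
most `1`, at least one of them having modulus exactly `1`. -/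
def Salem (α : ℝ) : Prop :=
  1 < α ∧ IsIntegral ℤ α ∧ (∀ z : ℂ, aeval z (minpoly ℚ α) = 0 → z ≠ (α : ℂ) → ‖z‖ ≤ 1) ∧
    ∃ z : ℂ, aeval z (minpoly ℚ α) = 0 ∧ ‖z‖ = 1

/-- The spectrum `𝓛(α)` of the values `limsup ‖ξ αⁿ‖`, `ξ` real. -/
def spectrum (α : ℝ) : Set ℝ :=
  {v | ∃ ξ : ℝ, limsup (fun n : ℕ => dist1 (ξ * α ^ n)) atTop = v}

/-- For every Salem number `α`: `𝓛(α)` is dense in `[0,1/2]`, but it is countable in a
neighbourhood of `0`; in particular it is not closed. -/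
theorem result (α : ℝ) (hα : Salem α) :
    ¬ IsClosed (spectrum α) ∧
    Set.Icc (0 : ℝ) (1 / 2) ⊆ closure (spectrum α) ∧
    (∃ c : ℝ, 0 < c ∧ (spectrum α ∩ Set.Iio c).Countable) ∧
    ∃ (ξ : ℕ → ℝ) (η : ℝ),
      Tendsto (fun j => limsup (fun n : ℕ => dist1 (ξ j * α ^ n)) atTop) atTop (𝓝 η) ∧
      ∀ ξ' : ℝ, limsup (fun n : ℕ => dist1 (ξ' * α ^ n)) atTop ≠ η := by
  have hS : Q3.Spec.IsSalem α := ⟨hα.1, hα.2.1, hα.2.2.1, hα.2.2.2⟩
  have hdense : Set.Icc (0 : ℝ) (1 / 2) ⊆ closure (spectrum α) := by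
    rw [← closure_Ioo (by norm_num : (0 : ℝ) ≠ 1 / 2)]
    apply closure_minimal _ isClosed_closure
    intro x hx
    exact Q3.Spec.salem_dense α hS x hx.1 hx.2
  obtain ⟨η, hη, hcl, hne⟩ := Q3.Spec.salem_not_closed α hS
  change η ∈ closure (spectrum α) at hcl
  change η ∉ spectrum α at hne
  refine ⟨?_, hdense, Q3.Spec.lag_countable α hS.one_lt hS.integral, ?_⟩
  · intro h
    rw [h.closure_eq] at hcl
    exact hne hcl
  · obtain ⟨u, hu, hlim⟩ := mem_closure_iff_seq_limit.mp hcl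
    choose ξ hξ using hu
    refine ⟨ξ, η, ?_, fun ξ' h => hne ⟨ξ', h⟩⟩
    simpa only [hξ] using hlim

end Pool.Agent.Results.MP_8d213d_nt.NotClosed
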